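import Pool.Agent.K1H35.SH.Stm2

/-! Approximate symmetries are almost trivial: union bound. -/

set_option autoImplicit false

namespace Pool.Agent.K1H38.SQ

open Finset Pool.Agent.K1H35.SH

lemma mem_cf {α : Type} (s : Finset α) (p : α → Prop) (i : DecidablePred p) (a : α) :
    a ∈ @Finset.filter α p i s ↔ a ∈ s ∧ p a := Finset.mem_filter

section

variable {n : ℕ}

lemma mem_nb' (G : SimpleGraph (Fin n)) (v x : Fin n) : x ∈ nb G v ↔ G.Adj v x := by
  classical
  simp [nb]

lemma mem_reg' (d : ℕ) (G : SimpleGraph (Fin n)) : G ∈ reg n d ↔ ∀ v, (nb G v).card = d := by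
  classical
  simp [reg]

lemma cnt_mono' (d : ℕ) {P Q : SimpleGraph (Fin n) → Prop} (h : ∀ G ∈ reg n d, P G → Q G) :
    cnt n d P ≤ cnt n d Q := by
  classical
  unfold cnt
  refine card_le_card ?_
  intro G hG
  rw [mem_filter] at hG ⊢
  exact ⟨hG.1, h G hG.1 hG.2⟩

lemma cnt_exists {ι : Type} [Fintype ι] (d : ℕ) (P : ι → SimpleGraph (Fin n) → Prop) :
    cnt n d (fun G => ∃ i, P i G) ≤ ∑ i, cnt n d (P i) := by
  classical
  unfold cnt
  refine (card_le_card ?_).trans (card_biUnion_le (s := univ) (t := fun i => (reg n d).filter (P i)))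
  intro G hG
  obtain ⟨h1, i, h2⟩ := (mem_cf _ _ _ _).1 hG
  rw [mem_biUnion]
  exact ⟨i, mem_univ _, mem_filter.2 ⟨h1, h2⟩⟩

lemma E2_univ (d : ℕ) (G : SimpleGraph (Fin n)) (hG : G ∈ reg n d) : E2 G univ = n * d := by
  classical
  unfold E2
  rw [card_eq_sum_card_fiberwise (f := Prod.fst) (t := univ) (fun _ _ => by simp)]
  have : ∀ v ∈ (univ : Finset (Fin n)), ((univ.filter (fun p : Fin n × Fin n =>
      p.1 ∈ (univ : Finset (Fin n)) ∧ p.2 ∈ (univ : Finset (Fin n)) ∧ G.Adj p.1 p.2)).filter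
        (fun p => p.1 = v)).card = d := by
    intro v _
    rw [← (mem_reg' d G).1 hG v]
    refine card_bij' (fun p _ => p.2) (fun x _ => (v, x)) ?_ ?_ ?_ ?_
    · rintro ⟨a, b⟩ h
      simp only [mem_filter, mem_univ, true_and] at h
      obtain ⟨h1, rfl⟩ := h
      exact (mem_nb' G _ _).2 h1
    · intro x hx
      simp only [mem_filter, mem_univ, true_and, and_true]
      exact (mem_nb' G _ _).1 hx
    · rintro ⟨a, b⟩ h
      simp only [mem_filter, mem_univ, true_and] at h
      obtain ⟨h1, rfl⟩ := h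
      rfl
    · intro x hx
      rfl
  rw [sum_congr rfl this, sum_const, card_univ, Fintype.card_fin, smul_eq_mul]

/-- the moved vertices -/
def mvd (π : Equiv.Perm (Fin n)) : Finset (Fin n) := univ.filter (fun x => π x ≠ x)

/-- the constrained pairs -/
noncomputable def DD (π : Equiv.Perm (Fin n)) : Finset (Sym2 (Fin n)) := by
  classical exact univ.filter (fun e => ∃ p : Fin n × Fin n, e = s(p.1, p.2) ∧ π p.1 ≠ p.1 ∧
    p.2 ≠ p.1 ∧ p.2 ≠ π p.1)

lemma mem_DD (π : Equiv.Perm (Fin n)) (e : Sym2 (Fin n)) : e ∈ DD π ↔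
    ∃ p : Fin n × Fin n, e = s(p.1, p.2) ∧ π p.1 ≠ p.1 ∧ p.2 ≠ p.1 ∧ p.2 ≠ π p.1 := by
  classical
  simp [DD]

lemma card_DD (π : Equiv.Perm (Fin n)) : (mvd π).card * (n - 2) ≤ 2 * (DD π).card := by
  classical
  set T : Finset (Fin n × Fin n) :=
    univ.filter (fun p => π p.1 ≠ p.1 ∧ p.2 ≠ p.1 ∧ p.2 ≠ π p.1) with hT
  have h1 : T.card ≤ 2 * (DD π).card := by
    refine card_le_mul_card_image_of_maps_to (f := fun p : Fin n × Fin n => s(p.1, p.2)) ?_ 2 ?_
    · intro p hp
      rw [hT, mem_filter] at hp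
      exact (mem_DD π _).2 ⟨p, rfl, hp.2⟩
    · intro b hb
      induction b using Sym2.ind with
      | _ x z =>
        refine (card_le_card (t := {(x, z), (z, x)}) ?_).trans card_le_two
        rintro ⟨a, c⟩ h
        rw [mem_filter, Sym2.eq_iff] at h
        simp only [mem_insert, mem_singleton, Prod.mk.injEq]
        exact h.2
  have h2 : (mvd π).card * (n - 2) ≤ T.card := by
    rw [card_eq_sum_card_fiberwise (s := T) (f := Prod.fst) (t := mvd π) (fun p hp => by
      rw [hT] at hp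
      simp only [coe_filter, mem_univ, true_and, Set.mem_ofPred_eq] at hp
      simp only [mvd, coe_filter, mem_univ, true_and, Set.mem_ofPred_eq]
      exact hp.1)]
    rw [← smul_eq_mul, ← sum_const]
    refine sum_le_sum ?_
    intro x hx
    have hx' : π x ≠ x := by simpa [mvd] using hx
    have h3 : n - 2 ≤ (univ \ {x, π x} : Finset (Fin n)).card := by
      have h4 := le_card_sdiff ({x, π x} : Finset (Fin n)) univ
      have h5 : ({x, π x} : Finset (Fin n)).card ≤ 2 := card_le_two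
      rw [card_univ, Fintype.card_fin] at h4
      omega
    refine h3.trans (card_le_card_of_injOn (fun z => (x, z)) ?_ ?_)
    · intro z hz
      simp only [coe_sdiff, coe_insert, coe_singleton, Set.mem_sdiff, mem_coe, mem_univ, true_and,
        Set.mem_insert_iff, Set.mem_singleton_iff, not_or] at hz
      simp only [hT, coe_filter, mem_filter, mem_univ, true_and, Set.mem_ofPred_eq, and_true]
      exact ⟨hx', hz.1, hz.2⟩
    · intro a _ b _ hab
      exact (Prod.mk.inj hab).2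
  exact h2.trans h1

/-- the estimate for one symmetry -/
lemma one (hL : S_LCC) (d w s : ℕ) (π : Equiv.Perm (Fin n)) (Δ : Finset (Fin n × Fin n))
    (hd : 64 * d ≤ n) (hd1 : 64 ≤ d) (hs : n ≤ s * d)
    (hc : 8 * (w * s) ≤ (mvd π).card * (n - 2)) :
    cnt n d (fun G => Sym G π Δ) * 2 ^ w ≤ n ^ (n + 4) * (reg n d).card := by
  classical
  -- the choice of an orientation
  let or : Sym2 (Fin n) → Fin n × Fin n := fun e =>
    if h : e ∈ DD π then ((mem_DD π e).1 h).choose else e.out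
  have hor : ∀ e ∈ DD π, e = s((or e).1, (or e).2) ∧ π (or e).1 ≠ (or e).1 ∧
      (or e).2 ≠ (or e).1 ∧ (or e).2 ≠ π (or e).1 := by
    intro e he
    have h1 : or e = ((mem_DD π e).1 he).choose := by simp [or, he]
    rw [h1]
    exact ((mem_DD π e).1 he).choose_spec
  let τ : Sym2 (Fin n) → Sym2 (Fin n) := fun e => s(π (or e).1, π.symm (or e).2)
  let σ : Sym2 (Fin n) → Prop := fun e => or e ∈ Δ
  have hcard : 4 * (w * s) ≤ (DD π).card := by
    have := card_DD π
    omega
  have key := hL n d univ (DD π) τ σ (w * s) (n * d) (by rw [card_univ, Fintype.card_fin]; omega)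
    (by
      intro e he
      obtain ⟨h1, h2, h3, h4⟩ := hor e he
      rw [h1]
      simp only [prs, mem_filter, mem_univ, true_and, implies_true, and_true]
      rw [Sym2.mk_isDiag_iff]
      exact fun h => h3 h.symm)
    (by
      intro e he
      obtain ⟨h1, h2, h3, h4⟩ := hor e he
      refine ⟨fun h => ?_, fun _ _ => mem_univ _⟩
      rw [h1] at h
      have h' : s(π (or e).1, π.symm (or e).2) = s((or e).1, (or e).2) := by
        rw [← h1]; rw [← h1] at h; exact h
      rw [Sym2.eq_iff] at h'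
      rcases h' with ⟨h5, -⟩ | ⟨h5, -⟩
      · exact h2 h5
      · exact h4 h5.symm) hcard
  have hmono : cnt n d (fun G => Sym G π Δ) ≤ cnt n d (fun G => n * d ≤ E2 G univ ∧
      2 * E2 G univ ≤ (univ : Finset (Fin n)).card * ((univ : Finset (Fin n)).card - 1) ∧
      Sat G (DD π) τ σ) := by
    refine cnt_mono' d ?_
    intro G hG hS
    rw [E2_univ d G hG, card_univ, Fintype.card_fin]
    refine ⟨le_rfl, ?_, ?_⟩
    · have h1 : 2 * d ≤ n - 1 := by omega
      calc 2 * (n * d) = n * (2 * d) := by ring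
        _ ≤ n * (n - 1) := Nat.mul_le_mul_left _ h1
    · intro e he
      obtain ⟨h1, h2, h3, h4⟩ := hor e he
      have h5 := hS (or e).1 (or e).2 (fun h => h3 h.symm)
      have h6 : (e ∈ G.edgeSet) = G.Adj (or e).1 (or e).2 := by
        conv_lhs => rw [h1]
        rfl
      rw [h6]
      exact h5
  have hn0 : (0 : ℝ) < n := by
    have : 0 < n := by omega
    exact_mod_cast this
  have hpow : (2 : ℝ) ^ w ≤ (1 + ((n * d : ℕ) : ℝ) / (((univ : Finset (Fin n)).card : ℕ) : ℝ) ^ 2) ^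
      (w * s) := by
    rw [card_univ, Fintype.card_fin, mul_comm w s, pow_mul]
    refine pow_le_pow_left₀ (by norm_num) ?_ _
    have h1 := one_add_mul_le_pow (a := ((n * d : ℕ) : ℝ) / (n : ℝ) ^ 2)
      (by have : (0 : ℝ) ≤ ((n * d : ℕ) : ℝ) / (n : ℝ) ^ 2 := by positivity
          linarith) s
    refine le_trans ?_ h1
    have h2 : (1 : ℝ) ≤ s * (((n * d : ℕ) : ℝ) / (n : ℝ) ^ 2) := by
      rw [mul_div_assoc', le_div_iff₀ (by positivity)]
      have h3 : (n : ℝ) ≤ s * d := by exact_mod_cast hs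
      push_cast
      nlinarith
    linarith
  rw [card_univ, Fintype.card_fin] at key
  rw [card_univ, Fintype.card_fin] at hpow hmono
  have hfin : ((cnt n d (fun G => Sym G π Δ) * 2 ^ w : ℕ) : ℝ) ≤
      ((n ^ (n + 4) * (reg n d).card : ℕ) : ℝ) := by
    push_cast
    refine le_trans ?_ key
    refine mul_le_mul ?_ hpow (by positivity) (by positivity)
    exact_mod_cast hmono
  exact_mod_cast hfin

/-- the exceptional set of a code -/
noncomputable def del {K : ℕ} (f : Fin K → Option (Fin n × Fin n)) : Finset (Fin n × Fin n) := by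
  classical exact univ.filter (fun p => ∃ i, f i = some p)

lemma exists_del {K : ℕ} (Δ : Finset (Fin n × Fin n)) (h : Δ.card ≤ K) :
    ∃ f : Fin K → Option (Fin n × Fin n), del f = Δ := by
  classical
  refine ⟨fun i => if hi : i.1 < Δ.card then some (Δ.equivFin.symm ⟨i.1, hi⟩).1 else none, ?_⟩
  ext p
  simp only [del, mem_filter, mem_univ, true_and]
  constructor
  · rintro ⟨i, hi⟩
    by_cases h1 : i.1 < Δ.card
    · rw [dif_pos h1] at hi
      rw [← Option.some.inj hi]
      exact (Δ.equivFin.symm ⟨i.1, h1⟩).2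
    · rw [dif_neg h1] at hi
      exact absurd hi (by simp)
  · intro hp
    refine ⟨⟨(Δ.equivFin ⟨p, hp⟩).1, (Δ.equivFin ⟨p, hp⟩).2.trans_le h⟩, ?_⟩
    rw [dif_pos (Δ.equivFin ⟨p, hp⟩).2]
    simp

end

lemma arith (n d K μ L s : ℕ) (hd : 64 * d ≤ n) (hd1 : 64 ≤ d)
    (hm : 32 * L * (2 * n + 2 * K + 8) ≤ μ * d) (hs : s * d ≤ n + d) :
    8 * (L * (2 * n + 6 + 3 * K) * s) ≤ (μ + 1) * (n - 2) := by
  have hd0 : 0 < d := by omega
  refine Nat.le_of_mul_le_mul_right ?_ hd0
  have h1 : n + d ≤ 2 * (n - 2) := by omega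
  calc 8 * (L * (2 * n + 6 + 3 * K) * s) * d = 8 * (L * (2 * n + 6 + 3 * K)) * (s * d) := by ring
    _ ≤ 8 * (L * (2 * (2 * n + 2 * K + 8))) * (2 * (n - 2)) := by
        refine Nat.mul_le_mul (Nat.mul_le_mul_left _ (Nat.mul_le_mul_left _ (by omega)))
          (hs.trans h1)
    _ = (32 * L * (2 * n + 2 * K + 8)) * (n - 2) := by ring
    _ ≤ (μ * d) * (n - 2) := Nat.mul_le_mul_right _ hm
    _ ≤ (μ + 1) * (n - 2) * d := by
        rw [mul_right_comm]
        exact Nat.mul_le_mul_right _ (Nat.mul_le_mul_right _ (Nat.le_succ μ))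

lemma numbers (n K L : ℕ) (hn : n ≤ 2 ^ L) (hL : 1 ≤ L) :
    n ^ n * (n * n + 1) ^ K * (n ^ (n + 4) * n ^ 2) ≤ 2 ^ (L * (2 * n + 6 + 3 * K)) := by
  have h1 : n * n + 1 ≤ 2 ^ (3 * L) := by
    have h2 : n * n ≤ 2 ^ L * 2 ^ L := Nat.mul_le_mul hn hn
    have h3 : 2 ^ (3 * L) = 2 ^ L * 2 ^ L * 2 ^ L := by rw [← pow_add, ← pow_add]; congr 1; ring
    have h4 : 2 ≤ 2 ^ L := by
      calc 2 = 2 ^ 1 := by norm_num
        _ ≤ 2 ^ L := Nat.pow_le_pow_right (by norm_num) hL
    have h5 : 1 ≤ 2 ^ L * 2 ^ L := Nat.mul_pos (by positivity) (by positivity)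
    rw [h3]
    nlinarith
  calc n ^ n * (n * n + 1) ^ K * (n ^ (n + 4) * n ^ 2)
      = n ^ (2 * n + 6) * (n * n + 1) ^ K := by ring
    _ ≤ (2 ^ L) ^ (2 * n + 6) * (2 ^ (3 * L)) ^ K :=
        Nat.mul_le_mul (Nat.pow_le_pow_left hn _) (Nat.pow_le_pow_left h1 _)
    _ = 2 ^ (L * (2 * n + 6 + 3 * K)) := by
        rw [← pow_mul, ← pow_mul, ← pow_add]
        congr 1
        ring

theorem t_QPB (h : S_LCC) : S_QPB := by
  classical
  intro n d K μ L hn hL hd hd1 hm
  set w := L * (2 * n + 6 + 3 * K) with hw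
  set s := n / d + 1 with hs
  have hs1 : n ≤ s * d := by
    rw [hs, add_mul, one_mul]
    have := Nat.lt_div_mul_add (a := n) (b := d) (by omega)
    exact this.le
  have hs2 : s * d ≤ n + d := by
    rw [hs, add_mul, one_mul]
    have := Nat.div_mul_le_self n d
    omega
  have har := arith n d K μ L s hd hd1 hm hs2
  let P : Equiv.Perm (Fin n) × (Fin K → Option (Fin n × Fin n)) → SimpleGraph (Fin n) → Prop :=
    fun i G => Sym G i.1 (del i.2) ∧ μ + 1 ≤ (mvd i.1).card
  have h1 : cnt n d (fun G => ¬ QP K μ G) ≤ ∑ i, cnt n d (P i) := by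
    refine (cnt_mono' d ?_).trans (cnt_exists d P)
    intro G _ hG
    unfold QP at hG
    push Not at hG
    obtain ⟨π, Δ, h2, h3, h4⟩ := hG
    obtain ⟨f, hf⟩ := exists_del Δ h2
    refine ⟨(π, f), ?_, ?_⟩
    · change Sym G π (del f)
      rw [hf]; exact h3
    · change μ + 1 ≤ (mvd π).card
      have h5 : ({x | π x ≠ x} : Set (Fin n)) = ((mvd π : Finset (Fin n)) : Set (Fin n)) := by
        ext x; simp [mvd]
      rw [h5, Set.ncard_coe_finset] at h4
      exact h4
  have h2 : ∀ i, cnt n d (P i) * 2 ^ w ≤ n ^ (n + 4) * (reg n d).card := by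
    rintro ⟨π, f⟩
    by_cases hc : μ + 1 ≤ (mvd π).card
    · refine le_trans (Nat.mul_le_mul_right _ (cnt_mono' d (Q := fun G => Sym G π (del f))
        fun G _ hG => hG.1)) ?_
      exact one h d w s π (del f) hd hd1 hs1 (har.trans (Nat.mul_le_mul_right _ hc))
    · have h0 : cnt n d (P (π, f)) = 0 := by
        unfold cnt
        rw [card_eq_zero]
        refine eq_empty_of_forall_notMem fun G hG => ?_
        exact hc ((mem_cf _ _ _ _).1 hG).2.2
      rw [h0, zero_mul]
      exact Nat.zero_le _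
  have h3 : cnt n d (fun G => ¬ QP K μ G) * 2 ^ w ≤
      (n ^ n * (n * n + 1) ^ K) * (n ^ (n + 4) * (reg n d).card) := by
    calc cnt n d (fun G => ¬ QP K μ G) * 2 ^ w ≤ (∑ i, cnt n d (P i)) * 2 ^ w :=
          Nat.mul_le_mul_right _ h1
      _ = ∑ i, cnt n d (P i) * 2 ^ w := by rw [sum_mul]
      _ ≤ ∑ _i : Equiv.Perm (Fin n) × (Fin K → Option (Fin n × Fin n)),
          n ^ (n + 4) * (reg n d).card := sum_le_sum fun i _ => h2 i
      _ = (n.factorial * (n * n + 1) ^ K) * (n ^ (n + 4) * (reg n d).card) := by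
          rw [sum_const, card_univ, Fintype.card_prod, Fintype.card_perm, Fintype.card_fun,
            Fintype.card_option, Fintype.card_prod, Fintype.card_fin, Fintype.card_fin, smul_eq_mul]
      _ ≤ (n ^ n * (n * n + 1) ^ K) * (n ^ (n + 4) * (reg n d).card) :=
          Nat.mul_le_mul_right _ (Nat.mul_le_mul_right _ (Nat.factorial_le_pow n))
  have h4 := numbers n K L hn hL
  refine Nat.le_of_mul_le_mul_right ?_ (show 0 < 2 ^ w by positivity)
  calc cnt n d (fun G => ¬ QP K μ G) * n ^ 2 * 2 ^ w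
      = cnt n d (fun G => ¬ QP K μ G) * 2 ^ w * n ^ 2 := by ring
    _ ≤ (n ^ n * (n * n + 1) ^ K) * (n ^ (n + 4) * (reg n d).card) * n ^ 2 :=
        Nat.mul_le_mul_right _ h3
    _ = (n ^ n * (n * n + 1) ^ K * (n ^ (n + 4) * n ^ 2)) * (reg n d).card := by ring
    _ ≤ 2 ^ w * (reg n d).card := Nat.mul_le_mul_right _ h4
    _ = (reg n d).card * 2 ^ w := mul_comm _ _

end Pool.Agent.K1H38.SQ
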